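import Pool.Agent.H29.FX.Targets

/-!
Row CXL: the complexity of the logarithmic derivatives.
-/

set_option autoImplicit false

open Finset MvPolynomial
open Pool.Agent.H29.FX

namespace Pool.Agent.H61.TFX

lemma cxl_sumdeg {n : ℕ} {ι : Type} (s : Finset ι) (f : ι → Pl n) (d : ℕ)
    (h : ∀ i ∈ s, (f i).totalDegree ≤ d) : (∑ i ∈ s, f i).totalDegree ≤ d := by
  classical
  induction s using Finset.induction_on with
  | empty => simp
  | insert a s ha ih =>
    rw [Finset.sum_insert ha]
    refine (totalDegree_add _ _).trans (max_le (h a (mem_insert_self a s)) (ih fun i hi => ?_))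
    exact h i (mem_insert_of_mem hi)

lemma cxl_sumnm {n : ℕ} (h0 : nm (0 : Pl n) = 0) (hadd : ∀ f g : Pl n, nm (f + g) ≤ nm f + nm g)
    {ι : Type} (s : Finset ι) (f : ι → Pl n) (K : ℝ) (h : ∀ i ∈ s, nm (f i) ≤ K) :
    nm (∑ i ∈ s, f i) ≤ s.card * K := by
  classical
  induction s using Finset.induction_on with
  | empty => simp [h0]
  | insert a s ha ih =>
    rw [Finset.sum_insert ha, Finset.card_insert_of_notMem ha]
    have h1 := h a (mem_insert_self a s)
    have h2 := ih fun i hi => h i (mem_insert_of_mem hi)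
    have h3 := hadd (f a) (∑ i ∈ s, f i)
    push_cast
    linarith

lemma cxl_prodX {n : ℕ} (hmul : ∀ f g : Pl n, nm (f * g) ≤ nm f * nm g)
    (h0 : ∀ f : Pl n, 0 ≤ nm f) (h1 : nm (1 : Pl n) ≤ 1)
    (hX : ∀ v : Fin n, nm (X v : Pl n) = 1) (s : Finset (Fin n)) :
    nm (∏ w ∈ s, (X w : Pl n)) ≤ 1 ∧ (∏ w ∈ s, (X w : Pl n)).totalDegree ≤ s.card := by
  classical
  induction s using Finset.induction_on with
  | empty => simp [h1]
  | insert a s ha ih =>
    rw [Finset.prod_insert ha, Finset.card_insert_of_notMem ha]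
    refine ⟨(hmul _ _).trans ?_, (totalDegree_mul _ _).trans ?_⟩
    · rw [hX, one_mul]
      exact ih.1
    · rw [totalDegree_X]
      linarith [ih.2]

theorem pf_CXL (hNRM : T_NRM) : T_CXL := by
  classical
  intro n B
  obtain ⟨n0, nadd, nneg, nmul, nC, nX, -, -⟩ := hNRM n
  have nz : nm (0 : Pl n) = 0 := by
    have := nC 0
    rwa [map_zero, Int.cast_zero, abs_zero] at this
  have n1 : nm (1 : Pl n) ≤ 1 := by
    have := nC 1
    rw [map_one, Int.cast_one, abs_one] at this
    exact this.le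
  refine ⟨n + B + 2, fun Y D pt e hY he hD => ?_⟩
  have hY0 : (0 : ℝ) ≤ Y := by linarith
  have hY1 : (1 : ℝ) ≤ Y := by linarith
  have hterm : ∀ v : Fin n, (C (e v : ℤ) * D (X v) * ∏ w ∈ univ.erase v, X w : Pl n).totalDegree ≤
      n + B ∧ nm (C (e v : ℤ) * D (X v) * ∏ w ∈ univ.erase v, X w : Pl n) ≤ Y ^ (B + 1) := by
    intro v
    obtain ⟨p1, p2⟩ := cxl_prodX nmul n0 n1 nX (univ.erase v)
    have p3 : ((univ : Finset (Fin n)).erase v).card ≤ n := by
      refine (Finset.card_le_univ _).trans ?_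
      simp
    constructor
    · refine (totalDegree_mul _ _).trans ?_
      have h1 := totalDegree_mul (C (e v : ℤ) : Pl n) (D (X v))
      rw [totalDegree_C] at h1
      have h2 := (hD v).deg
      omega
    · have h1 := nmul (C (e v : ℤ) * D (X v)) (∏ w ∈ univ.erase v, X w : Pl n)
      have h2 := nmul (C (e v : ℤ) : Pl n) (D (X v))
      have h3 : nm (C (e v : ℤ) : Pl n) ≤ Y := by
        rw [nC]
        have : ((e v : ℤ) : ℝ) = (e v : ℝ) := by norm_cast
        rw [this, abs_of_nonneg (Nat.cast_nonneg _)]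
        exact he v
      have h4 := (hD v).le
      have h5 : nm (C (e v : ℤ) : Pl n) * nm (D (X v)) ≤ Y * Y ^ B :=
        mul_le_mul h3 h4 (n0 _) hY0
      have h6 : nm (C (e v : ℤ) * D (X v)) * nm (∏ w ∈ univ.erase v, X w : Pl n) ≤
          (Y * Y ^ B) * 1 :=
        mul_le_mul (h2.trans h5) p1 (n0 _) (by positivity)
      calc nm (C (e v : ℤ) * D (X v) * ∏ w ∈ univ.erase v, X w : Pl n) ≤ (Y * Y ^ B) * 1 :=
            h1.trans h6
        _ = Y ^ (B + 1) := by ring
  have hnY : (n : ℝ) ≤ Y ^ n := by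
    have h1 : (n : ℝ) ≤ 2 ^ n := by
      exact_mod_cast (Nat.lt_two_pow_self (n := n)).le
    exact h1.trans (pow_le_pow_left₀ (by norm_num) hY n)
  have hlg : ∀ a, (lg pt e D a).totalDegree ≤ n + B ∧ nm (lg pt e D a) ≤ Y ^ (n + B + 1) := by
    intro a
    unfold lg
    constructor
    · exact cxl_sumdeg _ _ _ (fun v _ => (hterm v).1)
    · refine (cxl_sumnm nz nadd _ _ _ (fun v _ => (hterm v).2)).trans ?_
      have h1 : (((univ : Finset (Fin n)).filter (fun v => pt v = a)).card : ℝ) ≤ n := by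
        have : ((univ : Finset (Fin n)).filter (fun v => pt v = a)).card ≤ n := by
          refine (Finset.card_le_univ _).trans ?_
          simp
        exact_mod_cast this
      calc (((univ : Finset (Fin n)).filter (fun v => pt v = a)).card : ℝ) * Y ^ (B + 1) ≤
            Y ^ n * Y ^ (B + 1) :=
            mul_le_mul_of_nonneg_right (h1.trans hnY) (by positivity)
        _ = Y ^ (n + B + 1) := by rw [← pow_add]; ring_nf
  refine ⟨fun a => ⟨(hlg a).1.trans (by omega), (hlg a).2.trans ?_⟩,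
    fun a b => ⟨(totalDegree_sub _ _).trans (max_le ((hlg a).1.trans (by omega))
      ((hlg b).1.trans (by omega))), ?_⟩⟩
  · exact pow_le_pow_right₀ hY1 (by omega)
  · have h1 : nm (lg pt e D a - lg pt e D b) ≤ nm (lg pt e D a) + nm (lg pt e D b) := by
      rw [sub_eq_add_neg]
      have := nadd (lg pt e D a) (-lg pt e D b)
      rwa [nneg] at this
    have h2 := (hlg a).2
    have h3 := (hlg b).2
    have h4 : Y ^ (n + B + 2) = Y * Y ^ (n + B + 1) := by ring
    have h5 : 0 ≤ Y ^ (n + B + 1) := by positivity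
    rw [h4]
    nlinarith

end Pool.Agent.H61.TFX
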